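import Pool.Agent.Q160.FT.Scale

/-!
MP_8daebb_an: blow-ups at points where the points of at least the same density have positive
upper density.
-/

set_option autoImplicit false

namespace Pool.Agent.Results.MP_8daebb_an.FlatTangentMeasures

open MeasureTheory Set Filter Topology Metric
open scoped ENNReal

/-- The weight measure `μ` together with the field of tangent planes `T` is a stationary
`m`-dimensional varifold in `U`: `μ` is finite on compact subsets of `U`, the plane field is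
measurable, `T x` is an `m`-plane for `μ`-almost every `x` in `U`, and the first variation
vanishes. -/
structure IsStationaryVarifold {N : ℕ} (m : ℕ) (U : Set (EuclideanSpace ℝ (Fin N)))
    (μ : Measure (EuclideanSpace ℝ (Fin N)))
    (T : EuclideanSpace ℝ (Fin N) → Submodule ℝ (EuclideanSpace ℝ (Fin N))) : Prop where
  finite_compact : ∀ K ⊆ U, IsCompact K → μ K < ⊤
  measurable_plane : Measurable fun x => (T x).starProjection
  dim_plane : ∀ᵐ x ∂(μ.restrict U), Module.finrank ℝ (T x) = m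
  stationary : ∀ X : EuclideanSpace ℝ (Fin N) → EuclideanSpace ℝ (Fin N),
    ContDiff ℝ 1 X → HasCompactSupport X → tsupport X ⊆ U →
    ∫ x, LinearMap.trace ℝ (EuclideanSpace ℝ (Fin N))
      ((T x).starProjection ∘L fderiv ℝ X x :
        EuclideanSpace ℝ (Fin N) →L[ℝ] EuclideanSpace ℝ (Fin N)) ∂μ = 0

/-- The `m`-dimensional density `Θ(x)` of `μ` at `x`: the limit superior, as `r ↓ 0`, of
`μ (ball x r) / (ω_m r ^ m)` (for stationary varifolds the limit exists). -/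
noncomputable def density {N : ℕ} (m : ℕ) (μ : Measure (EuclideanSpace ℝ (Fin N)))
    (x : EuclideanSpace ℝ (Fin N)) : ℝ≥0∞ :=
  limsup (fun r : ℝ => μ (ball x r) /
    (volume (ball (0 : EuclideanSpace ℝ (Fin m)) 1) * ENNReal.ofReal r ^ m)) (𝓝[>] 0)

/-- `ν` is the blow-up (tangent measure) of `μ` at `x₀` along the scales `r j ↓ 0`: `ν` is finite
on compact sets and `(r j) ^ (-m) ∫ f ((x - x₀) / r j) dμ(x)` tends to `∫ f dν` for all continuous
functions `f` with compact support. -/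
structure IsBlowUp {N : ℕ} (m : ℕ) (μ : Measure (EuclideanSpace ℝ (Fin N)))
    (x₀ : EuclideanSpace ℝ (Fin N)) (r : ℕ → ℝ) (ν : Measure (EuclideanSpace ℝ (Fin N))) :
    Prop where
  pos : ∀ j, 0 < r j
  tendsto_zero : Tendsto r atTop (𝓝 0)
  finite_compact : IsFiniteMeasureOnCompacts ν
  limit : ∀ f : EuclideanSpace ℝ (Fin N) → ℝ, Continuous f → HasCompactSupport f →
    Tendsto (fun j => (r j ^ m)⁻¹ * ∫ x, f ((r j)⁻¹ • (x - x₀)) ∂μ) atTop (𝓝 (∫ x, f x ∂ν))

/-- The blow-up is flat with multiplicity `Q`, with convergence of the tangent planes: there is an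
`m`-plane `π` (the range of a linear isometry `L`) such that `ν` is `Q` times the Lebesgue measure
of `π`, and for every vector `v` in `π` and every `ρ > 0` the mean square
`(r j) ^ (-m) ∫ |v - P_{T x} v|² dμ(x)` over the ball `B (x₀, r j ρ)` tends to `0`. -/
def IsFlatBlowUp {N : ℕ} (m : ℕ) (μ : Measure (EuclideanSpace ℝ (Fin N)))
    (T : EuclideanSpace ℝ (Fin N) → Submodule ℝ (EuclideanSpace ℝ (Fin N)))
    (x₀ : EuclideanSpace ℝ (Fin N)) (r : ℕ → ℝ) (ν : Measure (EuclideanSpace ℝ (Fin N)))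
    (Q : ℝ≥0∞) : Prop :=
  ∃ L : EuclideanSpace ℝ (Fin m) →ₗᵢ[ℝ] EuclideanSpace ℝ (Fin N),
    ν = Q • (volume : Measure (EuclideanSpace ℝ (Fin m))).map L ∧
    ∀ a : EuclideanSpace ℝ (Fin m), ∀ ρ : ℝ, 0 < ρ →
      Tendsto (fun j => (r j ^ m)⁻¹ * ∫ x in ball x₀ (r j * ρ),
        ‖L a - (T x).starProjection (L a)‖ ^ 2 ∂μ) atTop (𝓝 0)

/-- **Theorem.** Let `(μ, T)` be a stationary `m`-varifold in the open set `U` and `x₀` in `U`.

(1) If along the scales `r j` the set `{Θ ≥ Θ(x₀)}` does not have density zero at `x₀`, then the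
blow-up of `μ` at `x₀` along the scales `r j` is flat with multiplicity `Θ(x₀)`, and the tangent
planes converge.

(2) If `Θ(x₀) > 0` and the set `{Θ ≠ Θ(x₀)}` has density zero at `x₀`, then all blow-ups of `μ`
at `x₀` are flat with multiplicity `Θ(x₀)`. -/
theorem result {N m : ℕ} (hm : 1 ≤ m) {U : Set (EuclideanSpace ℝ (Fin N))} (hU : IsOpen U)
    {μ : Measure (EuclideanSpace ℝ (Fin N))}
    {T : EuclideanSpace ℝ (Fin N) → Submodule ℝ (EuclideanSpace ℝ (Fin N))}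
    (hV : IsStationaryVarifold m U μ T) {x₀ : EuclideanSpace ℝ (Fin N)} (hx₀ : x₀ ∈ U) :
    (∀ (r : ℕ → ℝ) (ν : Measure (EuclideanSpace ℝ (Fin N))), IsBlowUp m μ x₀ r ν →
      (∃ c : ℝ, 0 < c ∧ ∃ᶠ j in atTop, ENNReal.ofReal (c * r j ^ m) ≤
        μ ({x | density m μ x₀ ≤ density m μ x} ∩ ball x₀ (r j))) →
      IsFlatBlowUp m μ T x₀ r ν (density m μ x₀)) ∧
    (density m μ x₀ ≠ 0 →
      Tendsto (fun ρ : ℝ => μ ({x | density m μ x ≠ density m μ x₀} ∩ ball x₀ ρ) /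
        ENNReal.ofReal ρ ^ m) (𝓝[>] 0) (𝓝 0) →
      ∀ (r : ℕ → ℝ) (ν : Measure (EuclideanSpace ℝ (Fin N))), IsBlowUp m μ x₀ r ν →
        IsFlatBlowUp m μ T x₀ r ν (density m μ x₀)) := by
  have hS : Pool.Agent.TH337.VF.Stat m U μ (fun x => (T x).starProjection) := by
    refine ⟨hV.finite_compact, hV.measurable_plane, ?_, ?_, ?_⟩
    · intro x
      exact Submodule.starProjection_norm_le _
    · filter_upwards [hV.dim_plane] with x hx
      rw [Pool.Agent.TH337.VF.trc_starProjection, hx]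
    · intro X hX hc hXU
      exact hV.stationary X hX hc hXU
  have main : ∀ (r : ℕ → ℝ) (ν : Measure (EuclideanSpace ℝ (Fin N))), IsBlowUp m μ x₀ r ν →
      (∃ c : ℝ, 0 < c ∧ ∃ᶠ j in atTop, ENNReal.ofReal (c * r j ^ m) ≤
        μ ({x | density m μ x₀ ≤ density m μ x} ∩ ball x₀ (r j))) →
      IsFlatBlowUp m μ T x₀ r ν (density m μ x₀) := by
    rintro r ν hB ⟨c, hc, hG⟩
    exact Pool.Agent.Q160.FT.core hU hm hS hx₀ hB.pos hB.tendsto_zero hB.finite_compact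
      hB.limit hc hG
  refine ⟨main, ?_⟩
  intro h0 hD r ν hB
  apply main r ν hB
  set Q := density m μ x₀ with hQ
  have hQt : Q ≠ ⊤ := Pool.Agent.TH337.VF.density_lt_top hS hU hx₀
  set ω := volume (ball (0 : EuclideanSpace ℝ (Fin m)) 1) with hω
  have hω0 : ω ≠ 0 := Pool.Agent.TH337.VF.omega_pos m
  have hω1 : ω ≠ ⊤ := Pool.Agent.TH337.VF.omega_lt m
  have hQω : Q * ω ≠ 0 := mul_ne_zero h0 hω0
  have hQω' : Q * ω ≠ ⊤ := ENNReal.mul_ne_top hQt hω1
  obtain ⟨R₀, hR₀, hRU⟩ := Metric.isOpen_iff.1 hU x₀ hx₀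
  refine ⟨(Q * ω / 2).toReal, ENNReal.toReal_pos (by simpa using ⟨h0, hω0⟩)
    (ENNReal.div_ne_top hQω' (by norm_num)), ?_⟩
  have hrGT : Tendsto r atTop (𝓝[>] 0) :=
    tendsto_nhdsWithin_iff.2 ⟨hB.tendsto_zero, Eventually.of_forall hB.pos⟩
  have h1 : ∀ᶠ ρ : ℝ in 𝓝[>] 0, μ ({x | density m μ x ≠ Q} ∩ ball x₀ ρ) /
      ENNReal.ofReal ρ ^ m < Q * ω / 2 :=
    hD.eventually (gt_mem_nhds (ENNReal.half_pos hQω))
  have h2 : ∀ᶠ ρ : ℝ in 𝓝[>] 0, 0 < ρ ∧ ρ < R₀ := Ioo_mem_nhdsGT hR₀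
  apply Eventually.frequently
  filter_upwards [hrGT.eventually h1, hrGT.eventually h2] with j hj1 hj2
  obtain ⟨hj0, hjR⟩ := hj2
  have hrm0 : ENNReal.ofReal (r j) ^ m ≠ 0 := pow_ne_zero _ (ENNReal.ofReal_pos.2 hj0).ne'
  have hrm1 : ENNReal.ofReal (r j) ^ m ≠ ⊤ := ENNReal.pow_ne_top ENNReal.ofReal_ne_top
  have h3 := Pool.Agent.TH337.VF.density_le hS
    ((closedBall_subset_ball hjR).trans hRU) hj0
  have h4 : μ ({x | density m μ x ≠ Q} ∩ ball x₀ (r j)) ≤
      Q * ω / 2 * ENNReal.ofReal (r j) ^ m :=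
    ((ENNReal.div_lt_iff (Or.inl hrm0) (Or.inl hrm1)).1 hj1).le
  have h5 : μ (ball x₀ (r j)) ≤ μ ({x | Q ≤ density m μ x} ∩ ball x₀ (r j)) +
      μ ({x | density m μ x ≠ Q} ∩ ball x₀ (r j)) := by
    refine (measure_mono ?_).trans (measure_union_le _ _)
    intro x hx
    by_cases hxQ : density m μ x = Q
    · exact Or.inl ⟨hxQ.ge, hx⟩
    · exact Or.inr ⟨hxQ, hx⟩
  have h6 : Q * ω * ENNReal.ofReal (r j) ^ m ≤
      μ ({x | Q ≤ density m μ x} ∩ ball x₀ (r j)) + Q * ω / 2 * ENNReal.ofReal (r j) ^ m := by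
    rw [mul_assoc]
    exact h3.trans (h5.trans (add_le_add le_rfl h4))
  have h7 : Q * ω / 2 * ENNReal.ofReal (r j) ^ m ≠ ⊤ :=
    ENNReal.mul_ne_top (ENNReal.div_ne_top hQω' (by norm_num)) hrm1
  have h8 : Q * ω * ENNReal.ofReal (r j) ^ m =
      Q * ω / 2 * ENNReal.ofReal (r j) ^ m + Q * ω / 2 * ENNReal.ofReal (r j) ^ m := by
    rw [← add_mul, ENNReal.add_halves]
  rw [h8] at h6
  have h9 : Q * ω / 2 * ENNReal.ofReal (r j) ^ m ≤
      μ ({x | Q ≤ density m μ x} ∩ ball x₀ (r j)) := (ENNReal.add_le_add_iff_right h7).1 h6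
  refine le_trans (le_of_eq ?_) h9
  rw [ENNReal.ofReal_mul ENNReal.toReal_nonneg,
    ENNReal.ofReal_toReal (ENNReal.div_ne_top hQω' (by norm_num)), ENNReal.ofReal_pow hj0.le]

end Pool.Agent.Results.MP_8daebb_an.FlatTangentMeasures
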