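import Pool.Agent.Q160.FT.Quant3

/-!
MP_8daebb_an: quantitative flatness at a given scale from one density pinching and a positive
proportion of points of high density, and its consequence at the points of Q1.
-/

set_option autoImplicit false

namespace Pool.Agent.Results.MP_8daebb_an.QuantitativeFlatness

open MeasureTheory Set Filter Topology Metric
open scoped ENNReal

/-- The weight measure `μ` together with the field of tangent planes `T` is a stationary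
`m`-dimensional varifold in `U`: `μ` is finite on compact subsets of `U`, the plane field is
measurable, `T x` is an `m`-plane for `μ`-almost every `x` in `U`, and the first variation
vanishes. -/
structure IsStationaryVarifold {N : ℕ} (m : ℕ) (U : Set (EuclideanSpace ℝ (Fin N)))
    (μ : Measure (EuclideanSpace ℝ (Fin N)))
    (T : EuclideanSpace ℝ (Fin N) → Submodule ℝ (EuclideanSpace ℝ (Fin N))) : Prop where
  finite_compact : ∀ K ⊆ U, IsCompact K → μ K < ⊤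
  measurable_plane : Measurable fun x => (T x).starProjection
  dim_plane : ∀ᵐ x ∂(μ.restrict U), Module.finrank ℝ (T x) = m
  stationary : ∀ X : EuclideanSpace ℝ (Fin N) → EuclideanSpace ℝ (Fin N),
    ContDiff ℝ 1 X → HasCompactSupport X → tsupport X ⊆ U →
    ∫ x, LinearMap.trace ℝ (EuclideanSpace ℝ (Fin N))
      ((T x).starProjection ∘L fderiv ℝ X x :
        EuclideanSpace ℝ (Fin N) →L[ℝ] EuclideanSpace ℝ (Fin N)) ∂μ = 0

/-- The `m`-dimensional density `Θ(x)` of `μ` at `x`: the limit superior, as `r ↓ 0`, of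
`μ (ball x r) / (ω_m r ^ m)` (for stationary varifolds the limit exists). -/
noncomputable def density {N : ℕ} (m : ℕ) (μ : Measure (EuclideanSpace ℝ (Fin N)))
    (x : EuclideanSpace ℝ (Fin N)) : ℝ≥0∞ :=
  limsup (fun r : ℝ => μ (ball x r) /
    (volume (ball (0 : EuclideanSpace ℝ (Fin m)) 1) * ENNReal.ofReal r ^ m)) (𝓝[>] 0)

/-- The support of `μ`: the points all of whose balls have positive measure. -/
def supp {N : ℕ} (μ : Measure (EuclideanSpace ℝ (Fin N))) : Set (EuclideanSpace ℝ (Fin N)) :=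
  {x | ∀ s : ℝ, 0 < s → μ (ball x s) ≠ 0}

/-- `ε`-flatness of `(μ, T)` at the point `x₀` and the scale `r`, with multiplicity `q`: there is
an `m`-plane `π` (the range of a linear isometry `L`) such that
* each point of the support of `μ` in the ball of radius `r` about `x₀` is at distance `< ε r`
  from `x₀ + π`, and each point of `x₀ + π` in this ball is at distance `< ε r` from the support;
* `r ^ (-m) ∫ |v - P_{T x} v|² dμ(x)` over `B (x₀, r)` is `< ε` for all `v` in `π`, `|v| ≤ 1`;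
* `r ^ (-m) ∫ f ((x - x₀) / r) dμ(x)` differs from `q ∫ f` over `π` by less than `ε`. -/
def IsFlatAt {N : ℕ} (m : ℕ) (ε q : ℝ) (f : EuclideanSpace ℝ (Fin N) → ℝ)
    (μ : Measure (EuclideanSpace ℝ (Fin N)))
    (T : EuclideanSpace ℝ (Fin N) → Submodule ℝ (EuclideanSpace ℝ (Fin N)))
    (x₀ : EuclideanSpace ℝ (Fin N)) (r : ℝ) : Prop :=
  ∃ L : EuclideanSpace ℝ (Fin m) →ₗᵢ[ℝ] EuclideanSpace ℝ (Fin N),
    (∀ x ∈ closedBall x₀ r, x ∈ supp μ → ∃ a, ‖x - (x₀ + L a)‖ < ε * r) ∧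
    (∀ a : EuclideanSpace ℝ (Fin m), ‖a‖ ≤ r → ∃ x ∈ supp μ, ‖x - (x₀ + L a)‖ < ε * r) ∧
    (∀ a : EuclideanSpace ℝ (Fin m), ‖a‖ ≤ 1 →
      (r ^ m)⁻¹ * ∫ x in ball x₀ r, ‖L a - (T x).starProjection (L a)‖ ^ 2 ∂μ < ε) ∧
    |(r ^ m)⁻¹ * ∫ x, f (r⁻¹ • (x - x₀)) ∂μ - q * ∫ a, f (L a)| < ε

/-- **Theorem.** (1) For `θ, q, c, ε > 0` and a test function `f` there is `δ > 0` such that the
following holds for all stationary `m`-varifolds `(μ, T)` in open sets `U`, all points `x₀` and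
all `r > 0` with `B (x₀, r / δ) ⊆ U`: if `Θ ≥ θ` almost everywhere in `B (x₀, r / δ)`,
`Θ(x₀) ≥ q`, `μ (B (x₀, r / δ)) ≤ (q + δ) ω_m (r / δ) ^ m` and
`μ ({Θ ≥ q} ∩ B (x₀, r)) ≥ c r ^ m`, then `(μ, T)` is `ε`-flat at `x₀` and `r` with
multiplicity `q`.

(2) If `Θ ≥ θ > 0` almost everywhere in `U`, `x₀` is in `U`, `Θ(x₀) > 0` and
`μ ({Θ ≥ Θ(x₀)} ∩ B (x₀, r)) ≥ c r ^ m` for all small `r`, then `(μ, T)` is `ε`-flat at `x₀` and
`r` with multiplicity `Θ(x₀)` for all sufficiently small `r`, for all `ε > 0`.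

(3) The same holds if instead the set `{Θ ≠ Θ(x₀)}` has density zero at `x₀`. -/
theorem result {N m : ℕ} (hm : 1 ≤ m) :
    (∀ θ q c ε : ℝ, 0 < θ → 0 < q → 0 < c → 0 < ε →
      ∀ f : EuclideanSpace ℝ (Fin N) → ℝ, Continuous f → HasCompactSupport f →
      ∃ δ : ℝ, 0 < δ ∧ ∀ U : Set (EuclideanSpace ℝ (Fin N)), IsOpen U →
        ∀ (μ : Measure (EuclideanSpace ℝ (Fin N)))
          (T : EuclideanSpace ℝ (Fin N) → Submodule ℝ (EuclideanSpace ℝ (Fin N))),
        IsStationaryVarifold m U μ T →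
        ∀ (x₀ : EuclideanSpace ℝ (Fin N)) (r : ℝ), 0 < r → ball x₀ (r / δ) ⊆ U →
        (∀ᵐ x ∂(μ.restrict (ball x₀ (r / δ))), ENNReal.ofReal θ ≤ density m μ x) →
        ENNReal.ofReal q ≤ density m μ x₀ →
        μ (ball x₀ (r / δ)) ≤ ENNReal.ofReal (q + δ) *
          (volume (ball (0 : EuclideanSpace ℝ (Fin m)) 1) * ENNReal.ofReal (r / δ) ^ m) →
        ENNReal.ofReal (c * r ^ m) ≤
          μ ({x | ENNReal.ofReal q ≤ density m μ x} ∩ ball x₀ r) →
        IsFlatAt m ε q f μ T x₀ r) ∧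
    (∀ U : Set (EuclideanSpace ℝ (Fin N)), IsOpen U →
      ∀ (μ : Measure (EuclideanSpace ℝ (Fin N)))
        (T : EuclideanSpace ℝ (Fin N) → Submodule ℝ (EuclideanSpace ℝ (Fin N))),
      IsStationaryVarifold m U μ T →
      ∀ θ : ℝ, 0 < θ → (∀ᵐ x ∂(μ.restrict U), ENNReal.ofReal θ ≤ density m μ x) →
      ∀ x₀ ∈ U, density m μ x₀ ≠ 0 →
      ((∃ c : ℝ, 0 < c ∧ ∀ᶠ r : ℝ in 𝓝[>] 0, ENNReal.ofReal (c * r ^ m) ≤
          μ ({x | density m μ x₀ ≤ density m μ x} ∩ ball x₀ r)) ∨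
        Tendsto (fun r : ℝ => μ ({x | density m μ x ≠ density m μ x₀} ∩ ball x₀ r) /
          ENNReal.ofReal r ^ m) (𝓝[>] 0) (𝓝 0)) →
      ∀ ε : ℝ, 0 < ε → ∀ f : EuclideanSpace ℝ (Fin N) → ℝ, Continuous f → HasCompactSupport f →
        ∀ᶠ r : ℝ in 𝓝[>] 0, IsFlatAt m ε (density m μ x₀).toReal f μ T x₀ r) := by
  have hstat : ∀ {U : Set (EuclideanSpace ℝ (Fin N))} {μ : Measure (EuclideanSpace ℝ (Fin N))}
      {T : EuclideanSpace ℝ (Fin N) → Submodule ℝ (EuclideanSpace ℝ (Fin N))},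
      IsStationaryVarifold m U μ T →
      Pool.Agent.TH337.VF.Stat m U μ (fun x => (T x).starProjection) := by
    intro U μ T hV
    refine ⟨hV.finite_compact, hV.measurable_plane, ?_, ?_, ?_⟩
    · intro x
      exact Submodule.starProjection_norm_le _
    · filter_upwards [hV.dim_plane] with x hx
      rw [Pool.Agent.TH337.VF.trc_starProjection, hx]
    · intro X hX hc hXU
      exact hV.stationary X hX hc hXU
  have hflat : ∀ {ε q : ℝ} {f : EuclideanSpace ℝ (Fin N) → ℝ}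
      {μ : Measure (EuclideanSpace ℝ (Fin N))}
      {T : EuclideanSpace ℝ (Fin N) → Submodule ℝ (EuclideanSpace ℝ (Fin N))}
      {x₀ : EuclideanSpace ℝ (Fin N)} {r : ℝ},
      Pool.Agent.Q160.FT.FlatAt m ε q f μ (fun x => (T x).starProjection) x₀ r →
      IsFlatAt m ε q f μ T x₀ r := by
    rintro ε q f μ T x₀ r ⟨L, g1, g2, g3, g4⟩
    exact ⟨L, g1, g2, g3, g4⟩
  constructor
  · intro θ q c ε hθ hq hc hε f hf hfc
    obtain ⟨δ, hδ, main⟩ := Pool.Agent.Q160.FT.quant (N := N) hm hθ hq hc hε hf hfc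
    refine ⟨δ, hδ, ?_⟩
    intro U hU μ T hV x₀ r hr hsub hlow hcen hup hmany
    refine hflat (main U hU μ _ (hstat hV) x₀ r hr hsub hlow hcen (hup.trans (le_of_eq ?_)) hmany)
    have hω : volume (ball (0 : EuclideanSpace ℝ (Fin m)) 1) =
        ENNReal.ofReal ((volume : Measure (EuclideanSpace ℝ (Fin m))).real (ball 0 1)) :=
      (ENNReal.ofReal_toReal (Pool.Agent.TH337.VF.omega_lt m)).symm
    have h1 : 0 < r / δ := div_pos hr hδ
    have h2 : 0 ≤ (volume : Measure (EuclideanSpace ℝ (Fin m))).real (ball 0 1) :=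
      ENNReal.toReal_nonneg
    rw [hω, ← ENNReal.ofReal_pow h1.le, ← ENNReal.ofReal_mul h2,
      ← ENNReal.ofReal_mul (by positivity)]
    congr 1
    ring
  · intro U hU μ T hV θ hθ hlow x₀ hx₀ h0 hcond ε hε f hf hfc
    have hS := hstat hV
    have main : ∀ c : ℝ, 0 < c → (∀ᶠ r : ℝ in 𝓝[>] 0, ENNReal.ofReal (c * r ^ m) ≤
          μ ({x | density m μ x₀ ≤ density m μ x} ∩ ball x₀ r)) →
        ∀ᶠ r : ℝ in 𝓝[>] 0, IsFlatAt m ε (density m μ x₀).toReal f μ T x₀ r := by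
      intro c hc hmany
      have := Pool.Agent.Q160.FT.all_scales (θ := θ) (ε := ε) hm hθ hc hε hf hfc hU hS hx₀ hlow h0
        hmany
      filter_upwards [this] with r hr
      exact hflat hr
    rcases hcond with ⟨c, hc, hmany⟩ | hD
    · exact main c hc hmany
    set Q := density m μ x₀ with hQ
    have hQt : Q ≠ ⊤ := Pool.Agent.TH337.VF.density_lt_top hS hU hx₀
    set ω := volume (ball (0 : EuclideanSpace ℝ (Fin m)) 1) with hω
    have hω0 : ω ≠ 0 := Pool.Agent.TH337.VF.omega_pos m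
    have hω1 : ω ≠ ⊤ := Pool.Agent.TH337.VF.omega_lt m
    have hQω : Q * ω ≠ 0 := mul_ne_zero h0 hω0
    have hQω' : Q * ω ≠ ⊤ := ENNReal.mul_ne_top hQt hω1
    obtain ⟨R₀, hR₀, hRU⟩ := Metric.isOpen_iff.1 hU x₀ hx₀
    apply main (Q * ω / 2).toReal (ENNReal.toReal_pos (by simpa using ⟨h0, hω0⟩)
      (ENNReal.div_ne_top hQω' (by norm_num)))
    have h1 : ∀ᶠ ρ : ℝ in 𝓝[>] 0, μ ({x | density m μ x ≠ Q} ∩ ball x₀ ρ) /
        ENNReal.ofReal ρ ^ m < Q * ω / 2 :=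
      hD.eventually (gt_mem_nhds (ENNReal.half_pos hQω))
    have h2 : ∀ᶠ ρ : ℝ in 𝓝[>] 0, 0 < ρ ∧ ρ < R₀ := Ioo_mem_nhdsGT hR₀
    filter_upwards [h1, h2] with r hj1 hj2
    obtain ⟨hj0, hjR⟩ := hj2
    have hrm0 : ENNReal.ofReal r ^ m ≠ 0 := pow_ne_zero _ (ENNReal.ofReal_pos.2 hj0).ne'
    have hrm1 : ENNReal.ofReal r ^ m ≠ ⊤ := ENNReal.pow_ne_top ENNReal.ofReal_ne_top
    have h3 := Pool.Agent.TH337.VF.density_le hS
      ((closedBall_subset_ball hjR).trans hRU) hj0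
    have h4 : μ ({x | density m μ x ≠ Q} ∩ ball x₀ r) ≤
        Q * ω / 2 * ENNReal.ofReal r ^ m :=
      ((ENNReal.div_lt_iff (Or.inl hrm0) (Or.inl hrm1)).1 hj1).le
    have h5 : μ (ball x₀ r) ≤ μ ({x | Q ≤ density m μ x} ∩ ball x₀ r) +
        μ ({x | density m μ x ≠ Q} ∩ ball x₀ r) := by
      refine (measure_mono ?_).trans (measure_union_le _ _)
      intro x hx
      by_cases hxQ : density m μ x = Q
      · exact Or.inl ⟨hxQ.ge, hx⟩
      · exact Or.inr ⟨hxQ, hx⟩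
    have h6 : Q * ω * ENNReal.ofReal r ^ m ≤
        μ ({x | Q ≤ density m μ x} ∩ ball x₀ r) + Q * ω / 2 * ENNReal.ofReal r ^ m := by
      rw [mul_assoc]
      exact h3.trans (h5.trans (add_le_add le_rfl h4))
    have h7 : Q * ω / 2 * ENNReal.ofReal r ^ m ≠ ⊤ :=
      ENNReal.mul_ne_top (ENNReal.div_ne_top hQω' (by norm_num)) hrm1
    have h8 : Q * ω * ENNReal.ofReal r ^ m =
        Q * ω / 2 * ENNReal.ofReal r ^ m + Q * ω / 2 * ENNReal.ofReal r ^ m := by
      rw [← add_mul, ENNReal.add_halves]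
    rw [h8] at h6
    have h9 : Q * ω / 2 * ENNReal.ofReal r ^ m ≤
        μ ({x | Q ≤ density m μ x} ∩ ball x₀ r) := (ENNReal.add_le_add_iff_right h7).1 h6
    refine le_trans (le_of_eq ?_) h9
    rw [ENNReal.ofReal_mul ENNReal.toReal_nonneg,
      ENNReal.ofReal_toReal (ENNReal.div_ne_top hQω' (by norm_num)), ENNReal.ofReal_pow hj0.le]

end Pool.Agent.Results.MP_8daebb_an.QuantitativeFlatness
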