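import Pool.Agent.Q160.FT.Single3
import Pool.Agent.Q160.FT.Single4
import Pool.Agent.Q160.FT.Single7

/-!
MP_8daebb_an: under the two hypotheses of Q1 the varifold is near the point a multiple of ONE
Lipschitz graph with small constant over the tangent plane, up to a set whose measure is at most a
constant times the sum of the tilt excess and of the measure of the points with another density.
-/

set_option autoImplicit false

namespace Pool.Agent.Results.MP_8daebb_an.SingleLipschitzGraph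

open MeasureTheory Set Filter Topology Metric
open scoped ENNReal

/-- The weight measure `μ` together with the field of tangent planes `T` is a stationary
`m`-dimensional varifold in `U`: `μ` is finite on compact subsets of `U`, the plane field is
measurable, `T x` is an `m`-plane for `μ`-almost every `x` in `U`, and the first variation
vanishes. -/
structure IsStationaryVarifold {N : ℕ} (m : ℕ) (U : Set (EuclideanSpace ℝ (Fin N)))
    (μ : Measure (EuclideanSpace ℝ (Fin N)))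
    (T : EuclideanSpace ℝ (Fin N) → Submodule ℝ (EuclideanSpace ℝ (Fin N))) : Prop where
  finite_compact : ∀ K ⊆ U, IsCompact K → μ K < ⊤
  measurable_plane : Measurable fun x => (T x).starProjection
  dim_plane : ∀ᵐ x ∂(μ.restrict U), Module.finrank ℝ (T x) = m
  stationary : ∀ X : EuclideanSpace ℝ (Fin N) → EuclideanSpace ℝ (Fin N),
    ContDiff ℝ 1 X → HasCompactSupport X → tsupport X ⊆ U →
    ∫ x, LinearMap.trace ℝ (EuclideanSpace ℝ (Fin N))
      ((T x).starProjection ∘L fderiv ℝ X x :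
        EuclideanSpace ℝ (Fin N) →L[ℝ] EuclideanSpace ℝ (Fin N)) ∂μ = 0

/-- The `m`-dimensional density `Θ(x)` of `μ` at `x`: the limit superior, as `r ↓ 0`, of
`μ (ball x r) / (ω_m r ^ m)` (for stationary varifolds the limit exists). -/
noncomputable def density {N : ℕ} (m : ℕ) (μ : Measure (EuclideanSpace ℝ (Fin N)))
    (x : EuclideanSpace ℝ (Fin N)) : ℝ≥0∞ :=
  limsup (fun r : ℝ => μ (ball x r) /
    (volume (ball (0 : EuclideanSpace ℝ (Fin m)) 1) * ENNReal.ofReal r ^ m)) (𝓝[>] 0)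

/-- The support of `μ`: the points all of whose balls have positive measure. -/
def supp {N : ℕ} (μ : Measure (EuclideanSpace ℝ (Fin N))) : Set (EuclideanSpace ℝ (Fin N)) :=
  {x | ∀ s : ℝ, 0 < s → μ (ball x s) ≠ 0}

/-- `μ` has at `x₀` the unique flat tangent cone `Θ(x₀)` times the plane `π`, `π` the range of the
linear isometry `L`: `r ^ (-m) ∫ f ((x - x₀) / r) dμ(x)` tends to `Θ(x₀) ∫ f` over `π` as `r ↓ 0`,
for all continuous functions `f` with compact support. -/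
def HasFlatTangentCone {N m : ℕ} (μ : Measure (EuclideanSpace ℝ (Fin N)))
    (x₀ : EuclideanSpace ℝ (Fin N))
    (L : EuclideanSpace ℝ (Fin m) →ₗᵢ[ℝ] EuclideanSpace ℝ (Fin N)) : Prop :=
  ∀ f : EuclideanSpace ℝ (Fin N) → ℝ, Continuous f → HasCompactSupport f →
    Tendsto (fun r : ℝ => (r ^ m)⁻¹ * ∫ x, f (r⁻¹ • (x - x₀)) ∂μ) (𝓝[>] 0)
      (𝓝 ((density m μ x₀).toReal * ∫ a, f (L a)))

/-- The plane `π`, the range of `L`. -/
noncomputable def plane {N m : ℕ} (L : EuclideanSpace ℝ (Fin m) →ₗᵢ[ℝ] EuclideanSpace ℝ (Fin N)) :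
    Submodule ℝ (EuclideanSpace ℝ (Fin N)) := LinearMap.range L.toLinearMap

/-- The tilt `∑ |v_i - P_{T x} v_i|²` of the plane `T x` with respect to the plane `π` with the
orthonormal basis `v_i = L e_i`. -/
noncomputable def tilt {N m : ℕ} (L : EuclideanSpace ℝ (Fin m) →ₗᵢ[ℝ] EuclideanSpace ℝ (Fin N))
    (T : EuclideanSpace ℝ (Fin N) → Submodule ℝ (EuclideanSpace ℝ (Fin N)))
    (x : EuclideanSpace ℝ (Fin N)) : ℝ :=
  ∑ i, ‖L (EuclideanSpace.single i 1) -
    (T x).starProjection (L (EuclideanSpace.single i 1))‖ ^ 2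

/-- The hypotheses of Q1 at the point `x₀` (`π` is the range of `L`): `Θ(x₀) > 0`, `μ` has at `x₀`
the unique flat tangent cone `Θ(x₀)` times `π`, and `μ ({Θ ≠ Θ(x₀)} ∩ B (x₀, r)) / r ^ m` tends to
`0` as `r ↓ 0`. -/
structure IsQ1Point {N m : ℕ} (U : Set (EuclideanSpace ℝ (Fin N)))
    (μ : Measure (EuclideanSpace ℝ (Fin N))) (x₀ : EuclideanSpace ℝ (Fin N))
    (L : EuclideanSpace ℝ (Fin m) →ₗᵢ[ℝ] EuclideanSpace ℝ (Fin N)) : Prop where
  mem : x₀ ∈ U
  pos : density m μ x₀ ≠ 0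
  cone : HasFlatTangentCone μ x₀ L
  dens : Tendsto (fun r : ℝ => μ ({x | density m μ x ≠ density m μ x₀} ∩ ball x₀ r) /
    ENNReal.ofReal r ^ m) (𝓝[>] 0) (𝓝 0)

/-- The mass of the ball `B (x, t)` is at most `(q + ε) ω_m t ^ m`. -/
def MassLe {N : ℕ} (m : ℕ) (μ : Measure (EuclideanSpace ℝ (Fin N))) (q ε : ℝ)
    (x : EuclideanSpace ℝ (Fin N)) (t : ℝ) : Prop :=
  μ (ball x t) ≤ ENNReal.ofReal ((q + ε) * t ^ m) *
    volume (ball (0 : EuclideanSpace ℝ (Fin m)) 1)

/-- The integral of the tilt over the ball `B (x, t)` is at most `ε t ^ m`. -/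
def TiltLe {N m : ℕ} (μ : Measure (EuclideanSpace ℝ (Fin N)))
    (T : EuclideanSpace ℝ (Fin N) → Submodule ℝ (EuclideanSpace ℝ (Fin N)))
    (L : EuclideanSpace ℝ (Fin m) →ₗᵢ[ℝ] EuclideanSpace ℝ (Fin N)) (ε : ℝ)
    (x : EuclideanSpace ℝ (Fin N)) (t : ℝ) : Prop :=
  ∫ z in ball x t, tilt L T z ∂μ ≤ ε * t ^ m

/-- The defect at the scale `R`: the measure of the points of `B (x₀, R)` with density different
from `Θ(x₀)`, plus the integral over `B (x₀, R)` of the tilt with respect to the range of `L`. -/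
noncomputable def defect {N m : ℕ} (μ : Measure (EuclideanSpace ℝ (Fin N)))
    (T : EuclideanSpace ℝ (Fin N) → Submodule ℝ (EuclideanSpace ℝ (Fin N)))
    (x₀ : EuclideanSpace ℝ (Fin N))
    (L : EuclideanSpace ℝ (Fin m) →ₗᵢ[ℝ] EuclideanSpace ℝ (Fin N)) (R : ℝ) : ℝ≥0∞ :=
  μ ({x | density m μ x ≠ density m μ x₀} ∩ ball x₀ R) +
    ENNReal.ofReal (∫ x in ball x₀ R, tilt L T x ∂μ)

/-- The vector `z` satisfies `|π^⊥ z| ≤ ε |π z|`, `π` the range of `L`. -/
def InCone {N m : ℕ} (L : EuclideanSpace ℝ (Fin m) →ₗᵢ[ℝ] EuclideanSpace ℝ (Fin N)) (ε : ℝ)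
    (z : EuclideanSpace ℝ (Fin N)) : Prop :=
  ‖z - (plane L).starProjection z‖ ≤ ε * ‖(plane L).starProjection z‖

/-- The orthogonal projection of `G - x₀` to the plane `π`, in the coordinates given by `L`. -/
def shadow {N m : ℕ} (L : EuclideanSpace ℝ (Fin m) →ₗᵢ[ℝ] EuclideanSpace ℝ (Fin N))
    (x₀ : EuclideanSpace ℝ (Fin N)) (G : Set (EuclideanSpace ℝ (Fin N))) :
    Set (EuclideanSpace ℝ (Fin m)) :=
  {a | ∃ x ∈ G, (plane L).starProjection (x - x₀) = L a}

/-- The subset `G` of `B (x₀, r)` is, up to `ε`, all of the varifold in this ball, and lies on a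
single sheet over the plane `π`, the range of `L`:
* `μ (B (x₀, r) \ G)` is at most `C` times the defect at the scale `4 r`, and at most `ε r ^ m`;
* the orthogonal projection of `G - x₀` to `π` has outer Lebesgue measure at least
  `(ω_m - ε) r ^ m`;
* `Θ = Θ(x₀)` on `G`;
* `|π^⊥ (y - x)| ≤ ε |π (y - x)|` for all `x` in `G` and all `y` in the support of `μ` in
  `B (x₀, r)`;
* `μ (B (x, t)) ≤ (Θ(x₀) + ε) ω_m t ^ m` and `∫ tilt dμ ≤ ε t ^ m` over `B (x, t)`, for all `x` in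
  `G` and `0 < t ≤ r`. -/
structure IsSheet {N m : ℕ} (μ : Measure (EuclideanSpace ℝ (Fin N)))
    (T : EuclideanSpace ℝ (Fin N) → Submodule ℝ (EuclideanSpace ℝ (Fin N)))
    (x₀ : EuclideanSpace ℝ (Fin N))
    (L : EuclideanSpace ℝ (Fin m) →ₗᵢ[ℝ] EuclideanSpace ℝ (Fin N)) (C ε r : ℝ)
    (G : Set (EuclideanSpace ℝ (Fin N))) : Prop where
  subset : G ⊆ ball x₀ r
  linear : μ (ball x₀ r \ G) ≤ ENNReal.ofReal C * defect μ T x₀ L (4 * r)
  small : μ (ball x₀ r \ G) ≤ ENNReal.ofReal (ε * r ^ m)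
  covers : ENNReal.ofReal (r ^ m) * volume (ball (0 : EuclideanSpace ℝ (Fin m)) 1) ≤
    volume (shadow L x₀ G) + ENNReal.ofReal (ε * r ^ m)
  density_eq : ∀ x ∈ G, density m μ x = density m μ x₀
  graph : ∀ x ∈ G, ∀ y ∈ ball x₀ r, y ∈ supp μ → InCone L ε (y - x)
  scales : ∀ x ∈ G, ∀ t : ℝ, 0 < t → t ≤ r →
    MassLe m μ (density m μ x₀).toReal ε x t ∧ TiltLe μ T L ε x t

lemma stat_of {N m : ℕ} {U : Set (EuclideanSpace ℝ (Fin N))}
    {μ : Measure (EuclideanSpace ℝ (Fin N))}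
    {T : EuclideanSpace ℝ (Fin N) → Submodule ℝ (EuclideanSpace ℝ (Fin N))}
    (hV : IsStationaryVarifold m U μ T) :
    Pool.Agent.TH337.VF.Stat m U μ (fun x => (T x).starProjection) := by
  refine ⟨hV.finite_compact, hV.measurable_plane, ?_, ?_, ?_⟩
  · intro x
    exact Submodule.starProjection_norm_le _
  · filter_upwards [hV.dim_plane] with x hx
    rw [Pool.Agent.TH337.VF.trc_starProjection, hx]
  · intro X hX hc hXU
    exact hV.stationary X hX hc hXU

lemma omega_eq (m : ℕ) : volume (ball (0 : EuclideanSpace ℝ (Fin m)) 1) =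
    ENNReal.ofReal ((volume : Measure (EuclideanSpace ℝ (Fin m))).real (ball 0 1)) :=
  (ENNReal.ofReal_toReal (Pool.Agent.TH337.VF.omega_lt m)).symm

lemma massLe_iff {N m : ℕ} {μ : Measure (EuclideanSpace ℝ (Fin N))} {q ε : ℝ}
    {x : EuclideanSpace ℝ (Fin N)} {t : ℝ} (ht : 0 ≤ t) (hq : 0 ≤ q + ε)
    (hfin : μ (ball x t) ≠ ⊤) : MassLe m μ q ε x t ↔
      μ.real (ball x t) ≤ (q + ε) *
        (volume : Measure (EuclideanSpace ℝ (Fin m))).real (ball 0 1) * t ^ m := by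
  have hω0 : 0 ≤ (volume : Measure (EuclideanSpace ℝ (Fin m))).real (ball 0 1) :=
    ENNReal.toReal_nonneg
  unfold MassLe
  rw [omega_eq, ← ENNReal.ofReal_mul (by positivity),
    ← ENNReal.ofReal_toReal hfin, ENNReal.ofReal_le_ofReal_iff (by positivity)]
  have e : (q + ε) * t ^ m *
      (volume : Measure (EuclideanSpace ℝ (Fin m))).real (ball 0 1) =
      (q + ε) * (volume : Measure (EuclideanSpace ℝ (Fin m))).real (ball 0 1) * t ^ m := by ring
  rw [e]
  rfl

lemma core_lin {N m : ℕ} (hm : 1 ≤ m) {θ q s : ℝ} (hθ : 0 < θ) (hq : 0 < q) (hs : 0 < s) :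
    ∃ δ C : ℝ, 0 < δ ∧ δ ≤ 1 / 2 ∧ 0 < C ∧ ∀ (U : Set (EuclideanSpace ℝ (Fin N))), IsOpen U →
      ∀ (μ : Measure (EuclideanSpace ℝ (Fin N)))
        (T : EuclideanSpace ℝ (Fin N) → Submodule ℝ (EuclideanSpace ℝ (Fin N))),
      IsStationaryVarifold m U μ T →
      ∀ (x₀ : EuclideanSpace ℝ (Fin N)) (r : ℝ)
        (L : EuclideanSpace ℝ (Fin m) →ₗᵢ[ℝ] EuclideanSpace ℝ (Fin N)),
      0 < r → closedBall x₀ (r / δ) ⊆ U →
      (∀ᵐ x ∂(μ.restrict (ball x₀ (r / δ))), ENNReal.ofReal θ ≤ density m μ x) →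
      MassLe m μ q δ x₀ (r / δ) →
      ∃ G ⊆ ball x₀ r, μ (ball x₀ r \ G) ≤ ENNReal.ofReal C *
          (μ ({x | density m μ x < ENNReal.ofReal q} ∩ ball x₀ (4 * r)) +
            ENNReal.ofReal (∫ x in ball x₀ (4 * r), tilt L T x ∂μ)) ∧
        ∀ x ∈ G, ENNReal.ofReal q ≤ density m μ x ∧
          (∀ y ∈ ball x₀ r, y ∈ supp μ → InCone L s (y - x)) ∧
          ∀ t : ℝ, 0 < t → t ≤ r → MassLe m μ q s x t ∧ TiltLe μ T L s x t := by
  have hs' : 0 < min (s / (1 + s)) (s / 2) := by positivity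
  have hs1 : min (s / (1 + s)) (s / 2) ≤ s / (1 + s) := min_le_left _ _
  have hs2 : min (s / (1 + s)) (s / 2) ≤ s / 2 := min_le_right _ _
  have hs3 : min (s / (1 + s)) (s / 2) ≤ s := hs2.trans (by linarith)
  obtain ⟨δ, C, hδ, hδ1, hC, main⟩ := Pool.Agent.Q160.FT.single_lin (N := N) hm hθ hq hs'
  refine ⟨δ, C, hδ, hδ1, hC, ?_⟩
  intro U hU μ T hV x₀ r L hr0 hcl hlow hmass
  have hS := stat_of hV
  have hfinB : ∀ A : Set (EuclideanSpace ℝ (Fin N)), A ⊆ closedBall x₀ (r / δ) → μ A ≠ ⊤ :=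
    fun A hA => ((measure_mono hA).trans_lt (hS.fin _ hcl (isCompact_closedBall x₀ _))).ne
  obtain ⟨G, hG, hG1, hG2⟩ := main U hU μ T hS hV.dim_plane x₀ r L hr0 hcl hlow
    ((massLe_iff (by positivity) (by positivity) (hfinB _ ball_subset_closedBall)).1 hmass)
  refine ⟨G, hG, hG1, ?_⟩
  intro x hx
  obtain ⟨g1, g2, g3⟩ := hG2 x hx
  refine ⟨g1, ?_, ?_⟩
  · intro y hy hyS
    have h1 := g2 y hy hyS
    unfold InCone
    set w := y - x with hw
    have h2 : (plane L)ᗮ.starProjection w = w - (plane L).starProjection w := by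
      rw [eq_sub_iff_add_eq, add_comm]
      exact Submodule.starProjection_add_starProjection_orthogonal (K := plane L) w
    have h3 : ‖(plane L)ᗮ.starProjection w‖ ≤ s / (1 + s) * ‖w‖ :=
      le_trans h1 (by gcongr)
    rw [h2] at h3
    have h4 : ‖w‖ ≤ ‖w - (plane L).starProjection w‖ + ‖(plane L).starProjection w‖ := by
      have := norm_add_le (w - (plane L).starProjection w) ((plane L).starProjection w)
      rwa [sub_add_cancel] at this
    have h5 : (1 + s) * ‖w - (plane L).starProjection w‖ ≤ s * ‖w‖ := by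
      have h6 : s / (1 + s) * ‖w‖ = s * ‖w‖ / (1 + s) := by ring
      rw [h6, le_div_iff₀ (by positivity)] at h3
      linarith
    nlinarith
  · intro t ht0 htr
    obtain ⟨k1, k2⟩ := g3 t ht0 htr
    have hfin : μ (ball x t) ≠ ⊤ := by
      have hsub2 : ball x t ⊆ ball x₀ (2 * r) := by
        apply ball_subset_ball'
        have h1 := hG hx
        rw [mem_ball] at h1
        linarith
      refine ((measure_mono hsub2).trans_lt (lt_of_le_of_lt (measure_mono ?_)
        (hS.fin _ hcl (isCompact_closedBall x₀ _)))).ne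
      refine (ball_subset_ball ?_).trans ball_subset_closedBall
      rw [le_div_iff₀ hδ]
      nlinarith
    exact ⟨(massLe_iff ht0.le (by positivity) hfin).2 (k1.trans (by gcongr)),
      (show ∫ z in ball x t, tilt L T z ∂μ ≤ s * t ^ m from k2.trans (by gcongr))⟩

lemma exists_eps (m : ℕ) {q ω ε : ℝ} (hq : 0 < q) (hε : 0 < ε) : ∃ s : ℝ, 0 < s ∧ s ≤ ε ∧
    ((q + s) * ((1 + s) * (1 + s)) ^ m - q) * ω + s ≤ q * ε := by
  have h1 : Tendsto (fun s : ℝ => ((q + s) * ((1 + s) * (1 + s)) ^ m - q) * ω + s) (𝓝[>] 0)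
      (𝓝 (((q + 0) * ((1 + 0) * (1 + 0)) ^ m - q) * ω + 0)) := by
    apply tendsto_nhdsWithin_of_tendsto_nhds
    have : Continuous fun s : ℝ => ((q + s) * ((1 + s) * (1 + s)) ^ m - q) * ω + s := by fun_prop
    exact this.tendsto 0
  have e : ((q + 0) * ((1 + 0) * (1 + 0)) ^ m - q) * ω + 0 = (0 : ℝ) := by simp
  rw [e] at h1
  obtain ⟨s, hs1, hs2⟩ := ((h1.eventually (gt_mem_nhds (mul_pos hq hε))).and
    (Ioc_mem_nhdsGT hε)).exists
  exact ⟨s, hs2.1, hs2.2, hs1.le⟩

lemma supp_of_density {N m : ℕ} {μ : Measure (EuclideanSpace ℝ (Fin N))}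
    {y : EuclideanSpace ℝ (Fin N)} (h : density m μ y ≠ 0) : y ∈ supp μ := by
  intro s hs h0
  apply h
  have h1 : (fun r : ℝ => μ (ball y r) /
      (volume (ball (0 : EuclideanSpace ℝ (Fin m)) 1) * ENNReal.ofReal r ^ m)) =ᶠ[𝓝[>] 0]
      fun _ => (0 : ℝ≥0∞) := by
    filter_upwards [Ioo_mem_nhdsGT hs] with r hr
    rw [measure_mono_null (ball_subset_ball hr.2.le) h0, ENNReal.zero_div]
  unfold density
  rw [limsup_congr h1, limsup_const]

/-- coordinates along the plane -/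
lemma exists_coords {N m : ℕ} (L : EuclideanSpace ℝ (Fin m) →ₗᵢ[ℝ] EuclideanSpace ℝ (Fin N)) :
    ∃ p : EuclideanSpace ℝ (Fin N) →L[ℝ] EuclideanSpace ℝ (Fin m),
      ∀ w, (plane L).starProjection w = L (p w) := by
  refine ⟨ContinuousLinearMap.adjoint L.toContinuousLinearMap, fun w => ?_⟩
  apply Submodule.eq_starProjection_of_mem_of_inner_eq_zero
  · exact ⟨_, rfl⟩
  · rintro _ ⟨a, rfl⟩
    rw [inner_sub_left]
    change inner ℝ w (L a) -
      inner ℝ (L (ContinuousLinearMap.adjoint L.toContinuousLinearMap w)) (L a) = 0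
    rw [L.inner_map_map, ContinuousLinearMap.adjoint_inner_left]
    exact sub_self _

lemma covers_of {N m : ℕ} {U : Set (EuclideanSpace ℝ (Fin N))}
    {μ : Measure (EuclideanSpace ℝ (Fin N))}
    {T : EuclideanSpace ℝ (Fin N) → Submodule ℝ (EuclideanSpace ℝ (Fin N))}
    (hV : IsStationaryVarifold m U μ T) {q s ε r : ℝ} (hq0 : 0 < q) (hs0 : 0 < s) (hsε : s ≤ ε)
    (hs : ((q + s) * ((1 + s) * (1 + s)) ^ m - q) *
      (volume : Measure (EuclideanSpace ℝ (Fin m))).real (ball 0 1) + s ≤ q * ε)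
    {x₀ : EuclideanSpace ℝ (Fin N)} (hr0 : 0 < r) (hsub : closedBall x₀ r ⊆ U)
    (hΘ : ENNReal.ofReal q ≤ density m μ x₀)
    {L : EuclideanSpace ℝ (Fin m) →ₗᵢ[ℝ] EuclideanSpace ℝ (Fin N)}
    {G : Set (EuclideanSpace ℝ (Fin N))} (hG : G ⊆ ball x₀ r)
    (hG1 : μ (ball x₀ r \ G) ≤ ENNReal.ofReal (s * r ^ m))
    (hG2 : ∀ x ∈ G, ENNReal.ofReal q ≤ density m μ x ∧
      (∀ y ∈ ball x₀ r, y ∈ supp μ → InCone L s (y - x)) ∧
      ∀ t : ℝ, 0 < t → t ≤ r → MassLe m μ q s x t ∧ TiltLe μ T L s x t) :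
    ENNReal.ofReal (r ^ m) * volume (ball (0 : EuclideanSpace ℝ (Fin m)) 1) ≤
      volume (shadow L x₀ G) + ENNReal.ofReal (ε * r ^ m) := by
  have hS := stat_of hV
  obtain ⟨ω, hω⟩ : ∃ ω, ω = (volume : Measure (EuclideanSpace ℝ (Fin m))).real (ball 0 1) :=
    ⟨_, rfl⟩
  rw [← hω] at hs
  have hω0 : 0 < ω := by
    rw [hω]
    exact ENNReal.toReal_pos (Pool.Agent.TH337.VF.omega_pos m) (Pool.Agent.TH337.VF.omega_lt m)
  have hωe : volume (ball (0 : EuclideanSpace ℝ (Fin m)) 1) = ENNReal.ofReal ω := by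
    rw [hω]
    exact omega_eq m
  obtain ⟨p, hp⟩ := exists_coords L
  have hε : 0 < ε := hs0.trans_le hsε
  · have hfinB : μ (ball x₀ r) ≠ ⊤ := ((measure_mono ball_subset_closedBall).trans_lt
      (hS.fin _ hsub (isCompact_closedBall x₀ r))).ne
    have hfinG : μ G ≠ ⊤ := ((measure_mono hG).trans_lt hfinB.lt_top).ne
    have hpn : ∀ w, ‖p w‖ = ‖(plane L).starProjection w‖ := by
      intro w
      rw [hp w, L.norm_map]
    have hsh := Pool.Agent.Q160.FT.shadow hfinG x₀ p (K := 1 + s) (K₁ := (1 + s) * (1 + s))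
      (C := q + s) (R := r) (by nlinarith) (by positivity) hr0 (by positivity)
      (by
        intro x hx y hy
        have h1 := (hG2 x hx).2.1 y (hG hy) (supp_of_density (m := m)
          (((ENNReal.ofReal_pos.2 hq0).trans_le (hG2 y hy).1).ne'))
        unfold InCone at h1
        rw [hpn]
        have h2 := norm_add_le ((y - x) - (plane L).starProjection (y - x))
          ((plane L).starProjection (y - x))
        rw [sub_add_cancel] at h2
        linarith)
      (by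
        intro x hx t ht0 htr
        exact ((hG2 x hx).2.2 t ht0 htr).1)
    set S := (fun x => p (x - x₀)) '' G with hSdef
    have hsub' : S ⊆ shadow L x₀ G := by
      rintro _ ⟨x, hx, rfl⟩
      exact ⟨x, hx, hp _⟩
    refine le_trans ?_ (add_le_add (measure_mono hsub') le_rfl)
    have hSb : S ⊆ ball 0 r := by
      rintro _ ⟨x, hx, rfl⟩
      rw [mem_ball_zero_iff, hpn]
      have h1 := hG hx
      rw [mem_ball, dist_eq_norm] at h1
      have h2 := ((plane L).starProjection).le_opNorm (x - x₀)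
      have h3 := (plane L).starProjection_norm_le
      nlinarith [norm_nonneg (x - x₀)]
    have hvb : volume (ball (0 : EuclideanSpace ℝ (Fin m)) r) = ENNReal.ofReal (r ^ m * ω) := by
      rw [Measure.addHaar_ball_of_pos _ _ hr0, finrank_euclideanSpace_fin, hωe,
        ← ENNReal.ofReal_mul (by positivity)]
    have hSle : volume S ≤ ENNReal.ofReal (r ^ m * ω) := by
      rw [← hvb]
      exact measure_mono hSb
    have hSfin : volume S ≠ ⊤ := (hSle.trans_lt ENNReal.ofReal_lt_top).ne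
    obtain ⟨v, hv⟩ : ∃ v, v = (volume S).toReal := ⟨_, rfl⟩
    have hve : volume S = ENNReal.ofReal v := by
      rw [hv]
      exact (ENNReal.ofReal_toReal hSfin).symm
    have hv0 : 0 ≤ v := by
      rw [hv]
      exact ENNReal.toReal_nonneg
    have hvle : v ≤ r ^ m * ω := by
      rw [hve] at hSle
      exact (ENNReal.ofReal_le_ofReal_iff (by positivity)).1 hSle
    have hdl := Pool.Agent.TH337.VF.density_le hS hsub hr0
    have hdl2 : ENNReal.ofReal (q * (ω * r ^ m)) ≤ μ (ball x₀ r) := by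
      refine le_trans ?_ ((mul_le_mul_left hΘ _).trans hdl)
      rw [hωe, ← ENNReal.ofReal_pow hr0.le, ← ENNReal.ofReal_mul hω0.le,
        ← ENNReal.ofReal_mul hq0.le]
    have hsplit : μ (ball x₀ r) ≤ μ G + μ (ball x₀ r \ G) := by
      refine (measure_mono ?_).trans (measure_union_le _ _)
      intro x hx
      by_cases hxG : x ∈ G
      · exact Or.inl hxG
      · exact Or.inr ⟨hx, hxG⟩
    have hall := hdl2.trans (hsplit.trans (add_le_add hsh hG1))
    have hC : 0 ≤ (q + s) * ((1 + s) * (1 + s)) ^ m := by positivity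
    rw [hve, ← ENNReal.ofReal_mul hC, ← ENNReal.ofReal_add (by positivity) (by positivity),
      ENNReal.ofReal_le_ofReal_iff (by positivity)] at hall
    rw [hωe, hve, ← ENNReal.ofReal_mul (by positivity),
      ← ENNReal.ofReal_add hv0 (by positivity)]
    apply ENNReal.ofReal_le_ofReal
    have hrm : 0 < r ^ m := by positivity
    have hCq : 0 ≤ (q + s) * ((1 + s) * (1 + s)) ^ m - q := by
      have h1 : 1 ≤ ((1 + s) * (1 + s)) ^ m := one_le_pow₀ (by nlinarith)
      nlinarith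
    have h7 : ((q + s) * ((1 + s) * (1 + s)) ^ m - q) * v ≤
        ((q + s) * ((1 + s) * (1 + s)) ^ m - q) * (r ^ m * ω) :=
      mul_le_mul_of_nonneg_left hvle hCq
    have h8 : (((q + s) * ((1 + s) * (1 + s)) ^ m - q) * ω + s) * r ^ m ≤ q * ε * r ^ m :=
      mul_le_mul_of_nonneg_right hs hrm.le
    have h9 : q * (r ^ m * ω) ≤ q * (v + ε * r ^ m) := by nlinarith
    exact le_of_mul_le_mul_left h9 hq0

lemma tendsto_mul_zero {c : ℝ} (hc : 0 < c) :
    Tendsto (fun r : ℝ => c * r) (𝓝[>] 0) (𝓝[>] 0) := by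
  refine tendsto_nhdsWithin_iff.2 ⟨?_, ?_⟩
  · apply tendsto_nhdsWithin_of_tendsto_nhds
    have : Continuous fun s : ℝ => c * s := by fun_prop
    simpa using this.tendsto 0
  · filter_upwards [self_mem_nhdsWithin] with s hs
    exact mul_pos hc hs

/-- at a point of Q1 the defect is small and the mass ratio is near the density -/
lemma nearly {N m : ℕ} (hm : 1 ≤ m) {U : Set (EuclideanSpace ℝ (Fin N))} (hU : IsOpen U)
    {μ : Measure (EuclideanSpace ℝ (Fin N))}
    {T : EuclideanSpace ℝ (Fin N) → Submodule ℝ (EuclideanSpace ℝ (Fin N))}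
    (hV : IsStationaryVarifold m U μ T)
    {x₀ : EuclideanSpace ℝ (Fin N)}
    {L : EuclideanSpace ℝ (Fin m) →ₗᵢ[ℝ] EuclideanSpace ℝ (Fin N)}
    (hx : IsQ1Point U μ x₀ L) {q δ σ : ℝ} (hq0 : 0 < q) (hQe : density m μ x₀ = ENNReal.ofReal q)
    (hδ : 0 < δ) (hσ0 : 0 < σ) :
    ∀ᶠ r : ℝ in 𝓝[>] 0, 0 < r ∧ closedBall x₀ (r / δ) ⊆ U ∧ MassLe m μ q δ x₀ (r / δ) ∧
      defect μ T x₀ L (4 * r) ≤ ENNReal.ofReal (σ * r ^ m) := by
  have hS := stat_of hV
  have htilt := Pool.Agent.Q160.FT.tilt_tendsto hm hU hS hx.mem hx.pos L hx.cone hx.dens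
  have hq : (density m μ x₀).toReal = q := by
    rw [hQe]
    exact ENNReal.toReal_ofReal hq0.le
  obtain ⟨ω, hω⟩ : ∃ ω, ω = (volume : Measure (EuclideanSpace ℝ (Fin m))).real (ball 0 1) :=
    ⟨_, rfl⟩
  have hω0 : 0 < ω := by
    rw [hω]
    exact ENNReal.toReal_pos (Pool.Agent.TH337.VF.omega_pos m) (Pool.Agent.TH337.VF.omega_lt m)
  obtain ⟨R₀, hR₀, hRU⟩ := Metric.isOpen_iff.1 hU x₀ hx.mem
  have hσ : 0 < σ / 2 / 4 ^ m := by positivity
  have h1 : ∀ᶠ ρ : ℝ in 𝓝[>] 0, (ρ ^ m)⁻¹ * μ.real (ball x₀ ρ) < (q + δ) * ω := by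
    apply (Pool.Agent.Q160.FT.ratio_tendsto hS hU hx.mem).eventually (gt_mem_nhds _)
    have h : 0 < δ * ω := by positivity
    change (density m μ x₀).toReal *
      (volume : Measure (EuclideanSpace ℝ (Fin m))).real (ball 0 1) < (q + δ) * ω
    rw [hq, ← hω]
    linarith
  have h2 : ∀ᶠ ρ : ℝ in 𝓝[>] 0, ρ ∈ Ioo 0 R₀ := Ioo_mem_nhdsGT hR₀
  have h3 : ∀ᶠ ρ : ℝ in 𝓝[>] 0, μ ({x | density m μ x ≠ density m μ x₀} ∩ ball x₀ ρ) /
      ENNReal.ofReal ρ ^ m < ENNReal.ofReal (σ / 2 / 4 ^ m) :=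
    hx.dens.eventually (gt_mem_nhds (ENNReal.ofReal_pos.2 hσ))
  have h4 : ∀ᶠ ρ : ℝ in 𝓝[>] 0, (ρ ^ m)⁻¹ * ∫ x in ball x₀ ρ, tilt L T x ∂μ < σ / 2 / 4 ^ m :=
    htilt.eventually (gt_mem_nhds hσ)
  filter_upwards [(tendsto_mul_zero (show 0 < 1 / δ by positivity)).eventually h1,
    (tendsto_mul_zero (show 0 < 1 / δ by positivity)).eventually h2,
    (tendsto_mul_zero (show (0 : ℝ) < 4 by norm_num)).eventually h3,
    (tendsto_mul_zero (show (0 : ℝ) < 4 by norm_num)).eventually h4,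
    self_mem_nhdsWithin] with r r1 r2 r3 r4 hr
  have hr0 : 0 < r := hr
  have e : 1 / δ * r = r / δ := by ring
  rw [e] at r1 r2
  have hrδ : 0 < r / δ := by positivity
  have hcl : closedBall x₀ (r / δ) ⊆ U := (closedBall_subset_ball r2.2).trans hRU
  have hp4 : 0 < (4 * r) ^ m := by positivity
  have e4 : σ / 2 / 4 ^ m * (4 * r) ^ m = σ / 2 * r ^ m := by
    rw [mul_pow]
    field_simp
  refine ⟨hr0, hcl, ?_, ?_⟩
  · rw [massLe_iff hrδ.le (by positivity)
      ((measure_mono ball_subset_closedBall).trans_lt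
        (hS.fin _ hcl (isCompact_closedBall x₀ _))).ne, ← hω]
    have hp : 0 < (r / δ) ^ m := by positivity
    rw [inv_mul_lt_iff₀ hp] at r1
    linarith
  · have h5 : μ ({x | density m μ x ≠ density m μ x₀} ∩ ball x₀ (4 * r)) ≤
        ENNReal.ofReal (σ / 2 / 4 ^ m) * ENNReal.ofReal (4 * r) ^ m := by
      refine (ENNReal.div_le_iff ?_ ?_).1 r3.le
      · exact pow_ne_zero _ (ENNReal.ofReal_pos.2 (by positivity)).ne'
      · exact ENNReal.pow_ne_top ENNReal.ofReal_ne_top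
    rw [← ENNReal.ofReal_pow (by positivity), ← ENNReal.ofReal_mul (by positivity), e4] at h5
    have h6 : ∫ x in ball x₀ (4 * r), tilt L T x ∂μ ≤ σ / 2 * r ^ m := by
      rw [inv_mul_lt_iff₀ hp4] at r4
      rw [← e4]
      linarith
    unfold defect
    refine (add_le_add h5 (ENNReal.ofReal_le_ofReal h6)).trans ?_
    rw [← ENNReal.ofReal_add (by positivity) (by positivity)]
    apply ENNReal.ofReal_le_ofReal
    apply le_of_eq
    ring

/-- **Theorem.** Let `m ≥ 1` and `θ, q, ε > 0`. There is `C` such that, for every open `U`, every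
stationary `m`-varifold `(μ, T)` in `U` with `Θ ≥ θ` almost everywhere in `U` and every point `x₀`
of `U` with `Θ(x₀) = q` and with the two properties of Q1 with the plane `π`, for all sufficiently
small `r > 0` there is a set `G` as in `IsSheet`: up to a set whose measure is at most `C` times
the defect at the scale `4 r`, and also at most `ε r ^ m`, the varifold in `B (x₀, r)` is `Θ(x₀)`
times one `ε`-Lipschitz graph over `π`. -/
theorem result {N m : ℕ} (hm : 1 ≤ m) {θ q ε : ℝ} (hθ : 0 < θ) (hq : 0 < q) (hε : 0 < ε) :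
    ∃ C : ℝ, ∀ (U : Set (EuclideanSpace ℝ (Fin N))), IsOpen U →
      ∀ (μ : Measure (EuclideanSpace ℝ (Fin N)))
        (T : EuclideanSpace ℝ (Fin N) → Submodule ℝ (EuclideanSpace ℝ (Fin N))),
      IsStationaryVarifold m U μ T →
      (∀ᵐ x ∂(μ.restrict U), ENNReal.ofReal θ ≤ density m μ x) →
      ∀ (x₀ : EuclideanSpace ℝ (Fin N))
        (L : EuclideanSpace ℝ (Fin m) →ₗᵢ[ℝ] EuclideanSpace ℝ (Fin N)),
      density m μ x₀ = ENNReal.ofReal q → IsQ1Point U μ x₀ L →
      ∀ᶠ r : ℝ in 𝓝[>] 0, ∃ G, IsSheet μ T x₀ L C ε r G := by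
  obtain ⟨s, hs0, hsε, hs⟩ := exists_eps m
    (ω := (volume : Measure (EuclideanSpace ℝ (Fin m))).real (ball 0 1)) hq hε
  obtain ⟨δ, C, hδ, hδ1, hC, main⟩ := core_lin (N := N) hm hθ hq hs0
  refine ⟨C + 1, ?_⟩
  intro U hU μ T hV hlow x₀ L hQe hx
  filter_upwards [nearly hm hU hV hx hq hQe hδ (show 0 < s / (C + 1) by positivity)] with r h
  obtain ⟨hr0, hcl, hmass, hdef⟩ := h
  obtain ⟨G, hG, hG1, hG2⟩ := main U hU μ T hV x₀ r L hr0 hcl
    (ae_restrict_of_ae_restrict_of_subset (ball_subset_closedBall.trans hcl) hlow) hmass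
  have hq' : (density m μ x₀).toReal = q := by
    rw [hQe]
    exact ENNReal.toReal_ofReal hq.le
  have h6 : ball x₀ r \ (G ∩ {x | density m μ x = density m μ x₀}) ⊆
      (ball x₀ r \ G) ∪ ({x | density m μ x ≠ density m μ x₀} ∩ ball x₀ (4 * r)) := by
    rintro x ⟨hx1, hx2⟩
    by_cases hxG : x ∈ G
    · right
      exact ⟨fun h => hx2 ⟨hxG, h⟩, ball_subset_ball (by linarith) hx1⟩
    · exact Or.inl ⟨hx1, hxG⟩
  have h7 : {x | density m μ x < ENNReal.ofReal q} ∩ ball x₀ (4 * r) ⊆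
      {x | density m μ x ≠ density m μ x₀} ∩ ball x₀ (4 * r) := by
    rintro x ⟨hx1, hx2⟩
    refine ⟨fun h => ?_, hx2⟩
    have hx1' : density m μ x < ENNReal.ofReal q := hx1
    rw [h, hQe] at hx1'
    exact lt_irrefl _ hx1'
  have hlin : μ (ball x₀ r \ (G ∩ {x | density m μ x = density m μ x₀})) ≤
      ENNReal.ofReal (C + 1) * defect μ T x₀ L (4 * r) := by
    refine (measure_mono h6).trans ((measure_union_le _ _).trans ?_)
    rw [ENNReal.ofReal_add hC.le zero_le_one, ENNReal.ofReal_one, add_mul, one_mul]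
    refine add_le_add (hG1.trans ?_) ?_
    · unfold defect
      gcongr
    · unfold defect
      exact le_self_add
  have hsm : μ (ball x₀ r \ (G ∩ {x | density m μ x = density m μ x₀})) ≤
      ENNReal.ofReal (s * r ^ m) := by
    refine hlin.trans ((mul_le_mul_right hdef _).trans (le_of_eq ?_))
    rw [← ENNReal.ofReal_mul (by positivity)]
    congr 1
    field_simp
  have hrr : r ≤ r / δ := by
    rw [le_div_iff₀ hδ]
    nlinarith
  refine ⟨G ∩ {x | density m μ x = density m μ x₀}, inter_subset_left.trans hG, hlin,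
    hsm.trans (ENNReal.ofReal_le_ofReal (by gcongr)),
    covers_of hV hq hs0 hsε hs hr0 ((closedBall_subset_closedBall hrr).trans hcl) hQe.ge
      (inter_subset_left.trans hG) hsm (fun x hx => hG2 x hx.1), fun x hx => hx.2, ?_, ?_⟩
  · intro x hx y hy hyS
    have h1 := (hG2 x hx.1).2.1 y hy hyS
    unfold InCone at h1 ⊢
    exact h1.trans (mul_le_mul_of_nonneg_right hsε (norm_nonneg _))
  · intro x hx t ht0 htr
    obtain ⟨k1, k2⟩ := (hG2 x hx.1).2.2 t ht0 htr
    rw [hq']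
    unfold MassLe at k1 ⊢
    unfold TiltLe at k2 ⊢
    refine ⟨k1.trans ?_, k2.trans (by gcongr)⟩
    gcongr

end Pool.Agent.Results.MP_8daebb_an.SingleLipschitzGraph
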